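import Pool.Agent.Q57.MV.Ineq

/-!
The cones of the divisors which are nef on an open toroidal subset.
-/

set_option autoImplicit false
set_option linter.overlappingInstances false
set_option linter.unusedSectionVars false
set_option maxHeartbeats 1000000

open FF MvPolynomial Pool.Agent.W603.LV Pool.Agent.W602.GT Pool.Agent.W602.Cov
open Pool.Agent.TH756.PR Pool.Agent.TH122.AB Pool.Agent.TH756.PN
open Pool.Agent.Y169.CH Pool.Agent.Y169.CH.Cvr Pool.Agent.Q57.TP Pool.Agent.Q57.TQ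
open Pool.Agent.Q57.GM Pool.Agent.Q57.GH Pool.Agent.Q57.FG Pool.Agent.Q57.GG Pool.Agent.Q57.GE
open Pool.Agent.Q57.FT

namespace Pool.Agent.Q57.MV

/-- the real points of a rational cone are combinations of finitely many integral points -/
theorem real_cone_fin {q : ℕ} {ι : Type} [Fintype ι] [DecidableEq ι] (A : ι → Fin q → ℤ) :
    ∃ (N : ℕ) (h : Fin N → Fin q → ℤ), (∀ b s, 0 ≤ ∑ i, A s i * h b i) ∧
      ∀ lam : Fin q → ℝ, (∀ s, 0 ≤ ∑ i, (A s i : ℝ) * lam i) →
        ∃ t : Fin N → ℝ, (∀ b, 0 ≤ t b) ∧ ∀ i, lam i = ∑ b, t b * h b i := by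
  classical
  obtain ⟨N, hh, hh1, hh2⟩ := real_cone fun z => Fin.append (A z) fun i => - A z i
  refine ⟨N, fun b i => (hh b (Fin.castAdd q i) : ℤ) - hh b (Fin.natAdd q i), fun b z => ?_,
    fun lam hlam => ?_⟩
  · have h1 := hh1 b z
    rw [Fin.sum_univ_add, ← Finset.sum_add_distrib] at h1
    refine h1.trans (le_of_eq ?_)
    refine Finset.sum_congr rfl fun i _ => ?_
    rw [Fin.append_left, Fin.append_right]
    ring
  · obtain ⟨t, ht, hlt⟩ := hh2 (posneg lam) (posneg_nonneg lam) (fun z => by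
      have h1 := sum_posneg lam (fun i => ((Fin.append (A z) (fun i => - A z i) i : ℤ) : ℝ))
        (fun i => (A z i : ℝ)) (fun i => by rw [Fin.append_left]) (fun i => by
          rw [Fin.append_right]
          push_cast
          rfl)
      have h2 := hlam z
      have h3 : ∑ i, ((Fin.append (A z) (fun i => - A z i) i : ℤ) : ℝ) * posneg lam i =
          ∑ i, (A z i : ℝ) * lam i := by
        have h4 : ∑ i, (A z i : ℝ) * lam i = ∑ i, lam i * (A z i : ℝ) :=
          Finset.sum_congr rfl fun i _ => mul_comm _ _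
        rw [h4, ← h1]
        exact Finset.sum_congr rfl fun i _ => mul_comm _ _
      rw [h3]
      exact h2)
    refine ⟨t, ht, fun i => ?_⟩
    have h1 : lam i = posneg lam (Fin.castAdd q i) - posneg lam (Fin.natAdd q i) := by
      rw [posneg, Fin.append_left, Fin.append_right]
      rcases le_total (lam i) 0 with h | h
      · rw [max_eq_right h, max_eq_left (by linarith : (0 : ℝ) ≤ - lam i)]
        ring
      · rw [max_eq_left h, max_eq_right (by linarith : - lam i ≤ (0 : ℝ))]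
        ring
    rw [h1, hlt, hlt, ← Finset.sum_sub_distrib]
    refine Finset.sum_congr rfl fun b _ => ?_
    push_cast
    ring

/-- the same, for arbitrary index sets -/
theorem real_cone_any {κ ι : Type} [Fintype κ] [Fintype ι] [DecidableEq ι] (A : ι → κ → ℤ) :
    ∃ (N : ℕ) (h : Fin N → κ → ℤ), (∀ b s, 0 ≤ ∑ i, A s i * h b i) ∧
      ∀ lam : κ → ℝ, (∀ s, 0 ≤ ∑ i, (A s i : ℝ) * lam i) →
        ∃ t : Fin N → ℝ, (∀ b, 0 ≤ t b) ∧ ∀ i, lam i = ∑ b, t b * h b i := by
  classical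
  let e : κ ≃ Fin (Fintype.card κ) := Fintype.equivFin κ
  obtain ⟨N, h, h1, h2⟩ := real_cone_fin fun s i => A s (e.symm i)
  refine ⟨N, fun b k => h b (e k), fun b s => ?_, fun lam hlam => ?_⟩
  · have h3 := h1 b s
    rw [← Equiv.sum_comp e] at h3
    simpa using h3
  · obtain ⟨t, ht, hlt⟩ := h2 (fun i => lam (e.symm i)) fun s => by
      rw [← Equiv.sum_comp e]
      simpa using hlam s
    refine ⟨t, ht, fun k => ?_⟩
    have h3 := hlt (e k)
    simpa using h3

variable {r R N' p : ℕ} {n : Fin r → ℕ} {K : Type} [Field K] [Algebra ℂ K]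
  {e : ((i : Fin r) × Fin (n i)) ≃ Fin (N' + 1)} {Φ : Blk ℂ (N' + 1) r} {C : Cvr Φ K R}
  {dF : Fin r → ℕ} {x : ∀ i, Fin (n i + 1) → K} {F : ∀ i, MvPolynomial (Fin (n i + 1)) ℂ}
  {c : Fin p → (Fin r → ℕ) → ℚ} {β : Fin p → Fin r → ℤ} {δ : Fin p → Place ℂ K → ℚ}
  {S T : Finset (Finset (Fin r → ℕ))} {u : Finset (Fin r → ℕ) → Fin p → Fin r → ℚ}

/-- the inequalities: over every cone of `T` there is a linear function which is equal to the support
function there -/
def MIneq (S T : Finset (Finset (Fin r → ℕ))) (dF : Fin r → ℕ)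
    (c : Fin p → (Fin r → ℕ) → ℚ) (β : Fin p → Fin r → ℤ) (lam : Fin p → ℝ) : Prop :=
  ∀ τ ∈ T, ∃ y : Fin r → ℝ, (∀ t, (dF t : ℝ) * y t ≤ ∑ i, lam i * β i t) ∧
    (∀ σ ∈ S, ∀ s ∈ σ, - ∑ i, lam i * c i s ≤ ∑ k, y k * (s k : ℝ)) ∧
    ∀ s ∈ τ, - ∑ i, lam i * c i s = ∑ k, y k * (s k : ℝ)

/-- the places over the cones of `T` -/
def OpT (T : Finset (Finset (Fin r → ℕ))) (μ' : Place ℂ K → Fin r → ℕ) (P : Place ℂ K) : Prop :=
  ∃ τ ∈ T, InC τ (μ' P)

/-- nef combinations satisfy the inequalities -/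
theorem mineq_of_nef (H : Mon e C dF x F) (hdF : ∀ i, 1 ≤ dF i) (hΦ : Smo Φ)
    {μ' : Place ℂ K → Fin r → ℕ} (hvv : ∀ P v, MultH C P v → v = μ' P)
    (hcf : ∀ i, CoefT dF x F (c i) (β i) (δ i)) (hS : Fan C.M C.a S)
    (hu : LinC C.M C.a S c u) (hT : ∀ τ ∈ T, τ.Nonempty ∧ ∃ σ ∈ S, τ ⊆ σ) {lam : Fin p → ℝ}
    {Op : Place ℂ K → Prop}
    (hOp : ∀ τ ∈ T, ∀ P, InC τ (μ' P) → μ' P ≠ 0 → Tor e dF x F P → Op P)
    (hn : NefZo Op (N' + 1) δ lam) : MIneq S T dF c β lam := by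
  classical
  intro τ hτ
  obtain ⟨hne, σ, hσ, hτσ⟩ := hT τ hτ
  obtain ⟨y, h1, h2, h3⟩ := mov_ineq (c := Fin.append c fun i v => - c i v)
    (β := Fin.append β fun i t => - β i t) (δ := Fin.append δ fun i P => - δ i P)
    (S := S) (u := fun σ => Fin.append (u σ) fun i k => - u σ i k) H hdF hΦ hvv
    (fun i => by
      refine Fin.addCases (fun i => ?_) (fun i => ?_) i
      · simp only [Fin.append_left]
        exact hcf i
      · simp only [Fin.append_right]
        refine ⟨by rw [(hcf i).h0, neg_zero], fun P α l v hdat => ?_⟩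
        rw [(hcf i).hδ P α l v hdat]
        push_cast
        simp only [neg_mul, Finset.sum_neg_distrib]
        ring) hS (fun σ hσ i v hv hvσ => by
      refine Fin.addCases (fun i => ?_) (fun i => ?_) i
      · simp only [Fin.append_left]
        exact hu σ hσ i v hv hvσ
      · simp only [Fin.append_right]
        rw [hu σ hσ i v hv hvσ, ← Finset.sum_neg_distrib]
        exact Finset.sum_congr rfl fun k _ => by ring) (posneg lam) (nefZo_nefFo hn) hσ hτσ hne
    (fun P hP => hOp τ hτ P hP)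
  have hc : ∀ s : Fin r → ℕ, ∑ i, posneg lam i *
      ((- (Fin.append c (fun i v => - c i v) i s) : ℚ) : ℝ) = - ∑ i, lam i * c i s := by
    intro s
    rw [← Finset.sum_neg_distrib]
    rw [sum_posneg lam (fun i => ((- (Fin.append c (fun i v => - c i v) i s) : ℚ) : ℝ))
      (fun i => - (c i s : ℝ)) (fun i => by rw [Fin.append_left]; push_cast; rfl) (fun i => by
        rw [Fin.append_right]
        push_cast
        rfl)]
    exact Finset.sum_congr rfl fun i _ => by ring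
  refine ⟨y, fun t => ?_, fun σ' hσ' s hs => ?_, fun s hs => ?_⟩
  · refine (h1 t).trans (le_of_eq ?_)
    refine sum_posneg lam _ (fun i => (β i t : ℝ)) (fun i => ?_) (fun i => ?_)
    · rw [Fin.append_left]
    · rw [Fin.append_right]
      push_cast
      rfl
  · rw [← hc]
    exact h2 s (hS.adm σ' hσ' s hs)
  · rw [← hc]
    exact h3 s hs

/-- the integral combinations with integral linear functions are generated over the cones of `T` -/
theorem bpo_of (H : Mon e C dF x F) {μ' : Place ℂ K → Fin r → ℕ}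
    (hvv : ∀ P v, MultH C P v → v = μ' P)
    (hcf : ∀ i, CoefT dF x F (c i) (β i) (δ i)) (hS : Fan C.M C.a S)
    (hu : LinC C.M C.a S c u) (hT : ∀ τ ∈ T, τ.Nonempty ∧ ∃ σ ∈ S, τ ⊆ σ) {μ : Fin p → ℤ}
    {y : Finset (Fin r → ℕ) → Fin r → ℤ}
    (h1 : ∀ τ ∈ T, ∀ t, (dF t : ℤ) * y τ t ≤ ∑ i, μ i * β i t)
    (h2 : ∀ τ ∈ T, ∀ s ∈ S.biUnion id, ∑ i, (μ i : ℚ) * (- c i s) ≤ ∑ k, (y τ k : ℚ) * s k)
    (h3 : ∀ τ ∈ T, ∀ s ∈ τ, ∑ i, (μ i : ℚ) * (- c i s) = ∑ k, (y τ k : ℚ) * s k) :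
    Bpo (OpT T μ') (N' + 1) δ μ := by
  classical
  rintro P hP ⟨τ, hτ, hPτ⟩
  obtain ⟨hne, σ, hσ, hτσ⟩ := hT τ hτ
  obtain ⟨α, l', v, hdat⟩ := H.exists_dat P
  rw [← hvv P v (hdat.multH H)] at hPτ
  refine ⟨fT dF x F (btz β μ) (y τ) l', fT_ne H _ _ _, fun Q hQ => Or.inr ?_, ?_⟩
  · obtain ⟨α2, l2, v2, hdat2⟩ := H.exists_dat Q
    have h4 := ord_fT_ge H hdat2 (b := btz β μ) (y := y τ) (h1 τ hτ) l'
    have h5 : ((∑ i, (v2 i : ℤ) * y τ i + ∑ i, btz β μ i * α2 i : ℤ) : ℚ) ≤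
        (Q.ord (fT dF x F (btz β μ) (y τ) l') : ℚ) := by exact_mod_cast h4
    refine le_trans ?_ h5
    rw [sum_coefz hcf hdat2]
    have h6 : ∑ i, (μ i : ℚ) * (- c i v2) ≤ ∑ i, (v2 i : ℚ) * y τ i := by
      by_cases hv : v2 = 0
      · rw [hv]
        refine le_of_eq ?_
        simp [(hcf _).h0]
      · refine (hS.ineq_all hu (μ := fun i => (μ i : ℚ)) (y := fun k => (y τ k : ℚ))
          (h2 τ hτ) v2 (hdat2.adm H hv)).trans (le_of_eq ?_)
        exact Finset.sum_congr rfl fun i _ => mul_comm _ _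
    push_cast
    linarith
  · rw [ord_fT H hdat, sum_coefz hcf hdat]
    have h4 : ∑ i, (btz β μ i - dF i * y τ i) * (P.ord (x i (l' i)) - α i) = 0 := by
      refine Finset.sum_eq_zero fun i _ => ?_
      rw [hdat.h2, sub_self, mul_zero]
    have h6 : ∑ i, (v i : ℚ) * y τ i = ∑ i, (μ i : ℚ) * (- c i v) := by
      by_cases hv : v = 0
      · rw [hv]
        simp [(hcf _).h0]
      · obtain ⟨w, hw, hwv⟩ := hPτ
        have h7 := fun i => comb_face hS hu hσ hτσ (hdat.adm H hv) hw hwv i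
        simp only [h7, hwv, Finset.mul_sum, Finset.sum_mul]
        rw [Finset.sum_comm, Finset.sum_comm (s := Finset.univ (α := Fin p))]
        refine Finset.sum_congr rfl fun s hs => ?_
        have h8 := h3 τ hτ s hs
        have h9 : ∑ k, w s * (s k : ℚ) * (y τ k : ℚ) = w s * ∑ k, (y τ k : ℚ) * s k := by
          rw [Finset.mul_sum]
          exact Finset.sum_congr rfl fun k _ => by ring
        rw [h9, ← h8, Finset.mul_sum]
        exact Finset.sum_congr rfl fun i _ => by ring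
    rw [h4, add_zero]
    push_cast
    rw [h6]
    linarith

end Pool.Agent.Q57.MV
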