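import Pool.Agent.Q57.MV.Main
import Pool.Agent.Q57.FT.Top

/-!
Divisors which are nef on an open toroidal subset, on covers of products of projective spaces: the
main theorem.
-/

set_option autoImplicit false
set_option linter.overlappingInstances false
set_option linter.unusedSectionVars false
set_option maxHeartbeats 1000000

open FF MvPolynomial Pool.Agent.W603.LV Pool.Agent.W602.GT Pool.Agent.W602.Cov
open Pool.Agent.TH756.PR Pool.Agent.TH122.AB Pool.Agent.TH756.PN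
open Pool.Agent.Y169.CH Pool.Agent.Q57.TP Pool.Agent.Q57.TQ Pool.Agent.Q57.GM
open Pool.Agent.Q57.GH Pool.Agent.Q57.FG Pool.Agent.Q57.FH Pool.Agent.Q57.GE Pool.Agent.Q57.FT
open Pool.Agent.Q57.TC

namespace Pool.Agent.Q57.MV

variable {r N R p : ℕ} {n : Fin r → ℕ} {K : Type} [Field K] [Algebra ℂ K]

/-- **The set-up**: coordinates in which the divisors are toroidal. -/
theorem setupM (hr : 1 ≤ r) (hn : ∀ i, 1 ≤ n i) (hN : N = ∑ i, n i)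
    {F : ∀ i, MvPolynomial (Fin (n i + 1)) ℂ} {d : Fin r → ℕ} (hd : ∀ i, 1 ≤ d i)
    (hh : ∀ i, (F i).IsHomogeneous (d i)) (hs : ∀ i, SmF (F i))
    {x : ∀ i, Fin (n i + 1) → K} (hx0 : ∀ i, x i 0 ≠ 0)
    (hbas : IsTranscendenceBasis ℂ (aff x)) {m : Fin R → ℕ} (hm : ∀ j, 0 < m j)
    {a : Fin R → Fin r → ℕ} (hdiv : ∀ j i, m j ∣ a j i * d i) {z : Fin R → K}
    (hz : ∀ j, z j ^ m j = ∏ i, (aeval (x i) (F i) / x i 0 ^ d i) ^ a j i)
    (hgen : IntermediateField.adjoin ℂ (Set.range (aff x) ∪ Set.range z) = ⊤) :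
    ∃ (N' : ℕ) (e : ((i : Fin r) × Fin (n i)) ≃ Fin (N' + 1)) (Φ : Blk ℂ (N' + 1) r)
      (C : Cvr Φ K R) (x' : ∀ i, Fin (n i + 1) → K) (F' : ∀ i, MvPolynomial (Fin (n i + 1)) ℂ),
      N = N' + 1 ∧ Smo Φ ∧ C.M = m ∧ C.a = a ∧ Mon e C d x' F' ∧
      (∀ P v, MultH C P v → v = mulQ F d x P) ∧
      (∀ P, Tor e d x' F' P → lD F d x P = 0) ∧
      ∀ (c : (Fin r → ℕ) → ℚ) (β : Fin r → ℤ) (δ : Place ℂ K → ℚ), c 0 = 0 →
        (∀ P, δ P = c (mulQ F d x P) - ∑ t, (β t : ℚ) * minO (x t) P) →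
        CoefT d x' F' c β δ := by
  classical
  obtain ⟨N', hN'⟩ : ∃ N', N = N' + 1 := by
    have h1 : n ⟨0, hr⟩ ≤ ∑ i, n i :=
      Finset.single_le_sum (f := n) (fun _ _ => Nat.zero_le _) (Finset.mem_univ _)
    have h2 := hn ⟨0, hr⟩
    exact ⟨N - 1, by omega⟩
  let e : ((i : Fin r) × Fin (n i)) ≃ Fin (N' + 1) :=
    finSigmaFinEquiv.trans (finCongr (by omega))
  have hbas' : IsTranscendenceBasis ℂ (uu e x) := basis_uu e hbas
  have hrange : Set.range (uu e x) = Set.range (aff x) := by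
    ext z
    constructor
    · rintro ⟨b, rfl⟩
      exact ⟨e.symm b, rfl⟩
    · rintro ⟨a, rfl⟩
      refine ⟨e a, ?_⟩
      change aff x (e.symm (e a)) = _
      rw [e.symm_apply_apply]
  obtain ⟨Φ, hΦ, hΦn, hΦD, C, hCM, hCa, hvv, x', F', hx', hs', hh', hFx', hZ, hFZ, hτ, hmin,
    κ, hκ0, hκ⟩ :=
    exists_cvr_o e hn hx0 hbas' hd hs hh hm hz hdiv (by rw [hrange]; exact hgen)
  have H : Mon e C d x' F' := ⟨hn, hx', hs', hh', hFx', hZ, hFZ, hτ, hΦn, hΦD⟩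
  refine ⟨N', e, Φ, C, x', F', hN', hΦ, hCM, hCa, H, hvv, fun P hP => ?_,
    fun c β δ hc0 hδ => ⟨hc0, fun P α l v hdat => ?_⟩⟩
  · obtain ⟨α, l, v, hdat⟩ := H.exists_dat P
    have hv := hvv P v (hdat.multH H)
    have h1 := hP α l v hdat
    have hκK : algebraMap ℂ K κ ≠ 0 := by
      rw [Ne, map_eq_zero]
      exact hκ0
    have hmo : mo e x' P = moS x P := by
      rw [moS_eq e]
      unfold mo
      congr 1
      ext k
      constructor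
      · rintro ⟨D, hD, h0, hk⟩
        rw [hκ] at h0
        have h0' : om e D x ≠ 0 := right_ne_zero_of_mul h0
        rw [hκ, P.ord_mul hκK h0', P.ord_const hκ0, zero_add] at hk
        exact ⟨D, hD, h0', hk⟩
      · rintro ⟨D, hD, h0, hk⟩
        refine ⟨D, hD, ?_, ?_⟩
        · rw [hκ]
          exact mul_ne_zero hκK h0
        · rw [hκ, P.ord_mul hκK h0, P.ord_const hκ0, zero_add]
          exact hk
    have h2 : ∀ i, minO (x i) P = α i := fun i => by rw [hmin, datH_min hdat]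
    unfold lD
    rw [← hmo, h1, ← hv]
    simp only [h2]
    ring
  · rw [hδ, ← hvv P v (hdat.multH H)]
    congr 1
    refine Finset.sum_congr rfl fun t _ => ?_
    rw [hmin, datH_min hdat]

/-- the test places over the cones of `T` -/
def OpD (F : ∀ i, MvPolynomial (Fin (n i + 1)) ℂ) (d : Fin r → ℕ) (x : ∀ i, Fin (n i + 1) → K)
    (T : Finset (Finset (Fin r → ℕ))) (P : Place ℂ K) : Prop :=
  (∃ τ ∈ T, InC τ (mulQ F d x P)) ∧ lD F d x P = if mulQ F d x P = 0 then 1 else 0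

/-- **The cone.** -/
theorem main_mov (hr : 1 ≤ r) (hn : ∀ i, 1 ≤ n i) (hN : N = ∑ i, n i)
    {F : ∀ i, MvPolynomial (Fin (n i + 1)) ℂ} {d : Fin r → ℕ} (hd : ∀ i, 1 ≤ d i)
    (hh : ∀ i, (F i).IsHomogeneous (d i)) (hs : ∀ i, SmF (F i))
    {x : ∀ i, Fin (n i + 1) → K} (hx0 : ∀ i, x i 0 ≠ 0)
    (hbas : IsTranscendenceBasis ℂ (aff x)) {m : Fin R → ℕ} (hm : ∀ j, 0 < m j)
    {a : Fin R → Fin r → ℕ} (hdiv : ∀ j i, m j ∣ a j i * d i) {z : Fin R → K}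
    (hz : ∀ j, z j ^ m j = ∏ i, (aeval (x i) (F i) / x i 0 ^ d i) ^ a j i)
    (hgen : IntermediateField.adjoin ℂ (Set.range (aff x) ∪ Set.range z) = ⊤)
    {S : Finset (Finset (Fin r → ℕ))} (hS : Fan m a S) {c : Fin p → (Fin r → ℕ) → ℚ}
    (hc0 : ∀ i, c i 0 = 0) {u : Finset (Fin r → ℕ) → Fin p → Fin r → ℚ} (hu : LinC m a S c u)
    {β : Fin p → Fin r → ℤ} {δ : Fin p → Place ℂ K → ℚ}
    (hδ : ∀ i P, δ i P = c i (mulQ F d x P) - ∑ t, (β i t : ℚ) * minO (x t) P)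
    {T : Finset (Finset (Fin r → ℕ))} (hT : ∀ τ ∈ T, τ.Nonempty ∧ ∃ σ ∈ S, τ ⊆ σ) :
    ∃ (N0 : ℕ) (h : Fin N0 → Fin p → ℤ), (∀ b, Bpo (OpT T (mulQ F d x)) N δ (h b)) ∧
      ∀ lam : Fin p → ℝ, (NefZo (OpD F d x T) N δ lam ↔ NefZo (OpT T (mulQ F d x)) N δ lam) ∧
        (NefZo (OpD F d x T) N δ lam ↔ MIneq S T d c β lam) ∧
        (NefZo (OpD F d x T) N δ lam ↔
          ∃ t : Fin N0 → ℝ, (∀ b, 0 ≤ t b) ∧ ∀ i, lam i = ∑ b, t b * h b i) := by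
  obtain ⟨N', e, Φ, C, x', F', rfl, hΦ, rfl, rfl, H, hvv, htor, hco⟩ :=
    setupM (N := N) hr hn hN hd hh hs hx0 hbas hm hdiv hz hgen
  obtain ⟨N0, h, h1, h2⟩ := cone_mov (T := T) H hd hΦ hvv
    (fun i => hco (c i) (β i) (δ i) (hc0 i) (hδ i)) hS hu hT
  refine ⟨N0, h, h1, fun lam => ?_⟩
  obtain ⟨h3, h4⟩ := h2 (OpD F d x T) (fun P hP => hP.1) (fun τ hτ P hP hP0 hPt =>
    ⟨⟨τ, hτ, hP⟩, by rw [if_neg hP0]; exact htor P hPt⟩) lam
  obtain ⟨h5, -⟩ := h2 (OpT T (mulQ F d x)) (fun P hP => hP) (fun τ hτ P hP _ _ =>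
    ⟨τ, hτ, hP⟩) lam
  exact ⟨h3.trans h5.symm, h3, h4⟩

end Pool.Agent.Q57.MV
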