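import Pool.Agent.Q57.MV.Plc

/-!
Divisors which are nef on an open toroidal subset: the inequalities.
-/

set_option autoImplicit false
set_option linter.overlappingInstances false
set_option linter.unusedSectionVars false
set_option maxHeartbeats 1000000

open FF MvPolynomial Pool.Agent.W603.LV Pool.Agent.W602.GT Pool.Agent.W602.Cov
open Pool.Agent.TH756.PR Pool.Agent.TH122.AB Pool.Agent.TH756.PN
open Pool.Agent.Y169.CH Pool.Agent.Y169.CH.Cvr Pool.Agent.Q57.TP Pool.Agent.Q57.TQ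
open Pool.Agent.Q57.GM Pool.Agent.Q57.GH Pool.Agent.Q57.FG Pool.Agent.Q57.GG Pool.Agent.Q57.GE
open Pool.Agent.Q57.FT

namespace Pool.Agent.Q57.MV

section cone

variable {r R p : ℕ} {M : Fin R → ℕ} {a : Fin R → Fin r → ℕ} {S : Finset (Finset (Fin r → ℕ))}
  {c : Fin p → (Fin r → ℕ) → ℚ} {u : Finset (Fin r → ℕ) → Fin p → Fin r → ℚ}

theorem inC_mono {σ τ : Finset (Fin r → ℕ)} (h : τ ⊆ σ) {v : Fin r → ℕ} (hv : InC τ v) :
    InC σ v := by
  classical
  obtain ⟨w, hw, hwv⟩ := hv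
  refine ⟨fun s => if s ∈ τ then w s else 0, fun s => ?_, fun k => ?_⟩
  · dsimp only
    split_ifs
    · exact hw s
    · exact le_rfl
  · rw [hwv k, ← Finset.sum_subset h]
    · exact Finset.sum_congr rfl fun s hs => by dsimp only; rw [if_pos hs]
    · intro s _ hs
      dsimp only
      rw [if_neg hs, zero_mul]

/-- the sum of the generators of a cone -/
theorem sum_gen (h : Fan M a S) {σ τ : Finset (Fin r → ℕ)} (hσ : σ ∈ S) (hτσ : τ ⊆ σ)
    (hτ : τ.Nonempty) : Adm M a (fun k => ∑ s ∈ τ, s k) ∧ InC τ fun k => ∑ s ∈ τ, s k := by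
  classical
  refine ⟨⟨fun h0 => ?_, fun j => ?_⟩, fun _ => 1, fun _ => zero_le_one, fun k => ?_⟩
  · obtain ⟨s, hs⟩ := hτ
    apply (h.adm σ hσ s (hτσ hs)).1
    funext k
    have h1 := congrFun h0 k
    simp only [Pi.zero_apply, Finset.sum_eq_zero_iff] at h1
    exact h1 s hs
  · have h1 : ∑ i, a j i * ∑ s ∈ τ, s i = ∑ s ∈ τ, ∑ i, a j i * s i := by
      rw [Finset.sum_comm]
      exact Finset.sum_congr rfl fun i _ => Finset.mul_sum _ _ _
    rw [h1]
    exact Finset.dvd_sum fun s hs => (h.adm σ hσ s (hτσ hs)).2 j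
  · push_cast
    simp only [one_mul]

/-- the coefficients of a combination on a face -/
theorem comb_face (h : Fan M a S) (hu : LinC M a S c u) {σ τ : Finset (Fin r → ℕ)} (hσ : σ ∈ S)
    (hτσ : τ ⊆ σ) {v : Fin r → ℕ} (hv : Adm M a v) {w : (Fin r → ℕ) → ℚ} (hw : ∀ s, 0 ≤ w s)
    (hwv : ∀ k, (v k : ℚ) = ∑ s ∈ τ, w s * s k) (i : Fin p) :
    - c i v = ∑ s ∈ τ, w s * (- c i s) := by
  rw [hu σ hσ i v hv (inC_mono hτσ ⟨w, hw, hwv⟩)]
  have h1 : ∀ s ∈ τ, w s * (- c i s) = ∑ k, u σ i k * (w s * s k) := by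
    intro s hs
    rw [hu σ hσ i s (h.adm σ hσ s (hτσ hs)) (inC_mem (hτσ hs)), Finset.mul_sum]
    exact Finset.sum_congr rfl fun k _ => by ring
  rw [Finset.sum_congr rfl h1, Finset.sum_comm]
  refine Finset.sum_congr rfl fun k _ => ?_
  rw [hwv k, Finset.mul_sum]

end cone

variable {r R N' p : ℕ} {n : Fin r → ℕ} {K : Type} [Field K] [Algebra ℂ K]
  {e : ((i : Fin r) × Fin (n i)) ≃ Fin (N' + 1)} {Φ : Blk ℂ (N' + 1) r} {C : Cvr Φ K R}
  {dF : Fin r → ℕ} {x : ∀ i, Fin (n i + 1) → K} {F : ∀ i, MvPolynomial (Fin (n i + 1)) ℂ}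
  {c : Fin p → (Fin r → ℕ) → ℚ} {β : Fin p → Fin r → ℤ} {δ : Fin p → Place ℂ K → ℚ}
  {S : Finset (Finset (Fin r → ℕ))} {u : Finset (Fin r → ℕ) → Fin p → Fin r → ℚ}

/-- **The inequalities for combinations which are nef at the places over a face.** -/
theorem mov_ineq (H : Mon e C dF x F) (hdF : ∀ i, 1 ≤ dF i) (hΦ : Smo Φ)
    {μ' : Place ℂ K → Fin r → ℕ} (hvv : ∀ P v, MultH C P v → v = μ' P)
    (hcf : ∀ i, CoefT dF x F (c i) (β i) (δ i)) (hS : Fan C.M C.a S)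
    (hu : LinC C.M C.a S c u) (lam : Fin p → ℝ) {Op : Place ℂ K → Prop}
    (hn : NefFo Op (N' + 1) δ lam) {σ τ : Finset (Fin r → ℕ)} (hσ : σ ∈ S) (hτσ : τ ⊆ σ)
    (hτ : τ.Nonempty) (hOp : ∀ P, InC τ (μ' P) → μ' P ≠ 0 → Tor e dF x F P → Op P) :
    ∃ y : Fin r → ℝ, (∀ t, (dF t : ℝ) * y t ≤ ∑ i, lam i * β i t) ∧
      (∀ v, Adm C.M C.a v → ∑ i, lam i * (- c i v : ℚ) ≤ ∑ k, y k * (v k : ℝ)) ∧
      ∀ s ∈ τ, ∑ i, lam i * (- c i s : ℚ) = ∑ k, y k * (s k : ℝ) := by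
  classical
  obtain ⟨t0, ht0⟩ := hS.bdd hu
  obtain ⟨N0, g, f, h1, h2, h3⟩ := geoS H hdF hΦ hcf ht0 (fun i v k hk hv => hS.ray hu i v k hk hv)
    hS.mem_adm (fun v hv => hS.gen hu v hv)
  obtain ⟨hadm0, w0, hw0, hwv0⟩ := sum_gen hS hσ hτσ hτ
  obtain ⟨P, v', r', hP, hPv, hadm', hr', hXr, htor⟩ := exists_toroidal H hΦ hvv hadm0
  obtain ⟨α, l', v, hdat⟩ := H.exists_dat P
  have hvv' : v = v' := (hvv P v (hdat.multH H)).trans (hvv P v' hPv).symm
  subst hvv'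
  have hr'q : (0 : ℚ) < r' := by exact_mod_cast hr'
  -- the coordinates of the vector
  have hvw : ∀ k, (v k : ℚ) = ∑ s ∈ τ, (1 / (r' : ℚ)) * s k := by
    intro k
    have h4 := congrFun hXr k
    rw [Pi.smul_apply, smul_eq_mul] at h4
    have h5 : ∑ s ∈ τ, (s k : ℚ) = r' * v k := by exact_mod_cast h4
    rw [← Finset.mul_sum, h5]
    field_simp
  have hvC : InC τ v := ⟨fun _ => 1 / (r' : ℚ), fun _ => by positivity, hvw⟩
  have hPo : Op P := by
    refine hOp P ?_ ?_ htor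
    · rw [← hvv P v (hdat.multH H)]
      exact hvC
    · rw [← hvv P v (hdat.multH H)]
      exact hadm'.1
  obtain ⟨t, ht, hlt, hnv⟩ := semi_of_nefFo h1 h3 lam hn P hP hPo
  choose y l hfb hdeg hadm using h2
  have hcv : ∀ i, - c i v = ∑ s ∈ τ, (1 / (r' : ℚ)) * (- c i s) := fun i =>
    comb_face hS hu hσ hτσ hadm' (fun _ => by positivity) hvw i
  -- the sections which do not vanish at the place
  have key : ∀ b, t b ≠ 0 → ∀ s ∈ τ, ∑ i, (g b i : ℚ) * (- c i s) = ∑ k, (y b k : ℚ) * s k := by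
    intro b hb
    have h4 := hnv b hb
    rw [sum_coef hcf hdat, hfb] at h4
    have h5 := ord_fT_ge H hdat (hdeg b) (l b)
    have h6 : ((∑ i, (v i : ℤ) * y b i + ∑ i, bt β (g b) i * α i : ℤ) : ℚ) ≤
        (P.ord (fT dF x F (bt β (g b)) (y b) (l b)) : ℚ) := by exact_mod_cast h5
    rw [Int.cast_add] at h6
    have h7 : ((∑ i, (v i : ℤ) * y b i : ℤ) : ℚ) ≤ ∑ i, (g b i : ℚ) * (- c i v) := by linarith
    have h8 : ∑ i, (g b i : ℚ) * (- c i v) = ∑ s ∈ τ, (1 / (r' : ℚ)) *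
        ∑ i, (g b i : ℚ) * (- c i s) := by
      simp only [hcv, Finset.mul_sum]
      rw [Finset.sum_comm]
      exact Finset.sum_congr rfl fun s _ => Finset.sum_congr rfl fun i _ => by ring
    have h9 : ((∑ i, (v i : ℤ) * y b i : ℤ) : ℚ) = ∑ s ∈ τ, (1 / (r' : ℚ)) *
        ∑ k, (y b k : ℚ) * s k := by
      push_cast
      simp only [hvw, Finset.mul_sum, Finset.sum_mul]
      rw [Finset.sum_comm]
      exact Finset.sum_congr rfl fun s _ => Finset.sum_congr rfl fun i _ => by ring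
    have h10 : ∀ s ∈ τ, (1 / (r' : ℚ)) * ∑ i, (g b i : ℚ) * (- c i s) ≤
        (1 / (r' : ℚ)) * ∑ k, (y b k : ℚ) * s k := by
      intro s hs
      refine mul_le_mul_of_nonneg_left ?_ (by positivity)
      have h11 := hadm b s (hS.adm σ hσ s (hτσ hs))
      refine h11.trans (le_of_eq ?_)
      push_cast
      exact Finset.sum_congr rfl fun k _ => mul_comm _ _
    have h11 : ∑ s ∈ τ, (1 / (r' : ℚ)) * ∑ k, (y b k : ℚ) * s k ≤
        ∑ s ∈ τ, (1 / (r' : ℚ)) * ∑ i, (g b i : ℚ) * (- c i s) := by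
      rw [← h8, ← h9]
      exact h7
    have h12 := (Finset.sum_eq_sum_iff_of_le h10).1 (le_antisymm (Finset.sum_le_sum h10) h11)
    intro s hs
    have h13 := h12 s hs
    exact mul_left_cancel₀ (by positivity : (1 / (r' : ℚ)) ≠ 0) h13
  -- the real combination
  have hcomb : ∀ A : Fin p → ℚ, ∑ i, lam i * (A i : ℝ) =
      ∑ b, t b * ((∑ i, (g b i : ℚ) * A i : ℚ) : ℝ) := by
    intro A
    have h4 : ∀ i, lam i * (A i : ℝ) = ∑ b, t b * ((g b i : ℝ) * A i) := by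
      intro i
      rw [hlt i, Finset.sum_mul]
      exact Finset.sum_congr rfl fun b _ => by ring
    rw [Finset.sum_congr rfl fun i _ => h4 i, Finset.sum_comm]
    refine Finset.sum_congr rfl fun b _ => ?_
    rw [← Finset.mul_sum]
    push_cast
    rfl
  have hY : ∀ w : Fin r → ℕ, ∑ k, (∑ b, t b * (y b k : ℝ)) * (w k : ℝ) =
      ∑ b, t b * ((∑ k, (y b k : ℚ) * w k : ℚ) : ℝ) := by
    intro w
    simp only [Finset.sum_mul]
    rw [Finset.sum_comm]
    refine Finset.sum_congr rfl fun b _ => ?_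
    push_cast
    rw [Finset.mul_sum]
    exact Finset.sum_congr rfl fun k _ => by ring
  refine ⟨fun k => ∑ b, t b * (y b k : ℝ), fun s => ?_, fun w hw => ?_, fun s hs => ?_⟩
  · have h5 : ∑ i, lam i * (β i s : ℝ) = ∑ b, t b * ((∑ i, (g b i : ℚ) * β i s : ℚ) : ℝ) := by
      have := hcomb fun i => (β i s : ℚ)
      push_cast at this ⊢
      exact this
    rw [h5, Finset.mul_sum]
    refine Finset.sum_le_sum fun b _ => ?_
    have h6 := hdeg b s
    have h7 : (((dF s : ℤ) * y b s : ℤ) : ℝ) ≤ ((bt β (g b) s : ℤ) : ℝ) := by exact_mod_cast h6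
    unfold bt at h7
    push_cast at h7
    have h8 := mul_le_mul_of_nonneg_left h7 (ht b)
    refine le_trans (le_of_eq ?_) (h8.trans (le_of_eq ?_))
    · ring
    · push_cast
      rfl
  · rw [hcomb fun i => - c i w, hY]
    refine Finset.sum_le_sum fun b _ => mul_le_mul_of_nonneg_left ?_ (ht b)
    have h6 := hadm b w hw
    have h7 : ∑ i, (g b i : ℚ) * (- c i w) ≤ ∑ k, (y b k : ℚ) * w k := by
      refine h6.trans (le_of_eq ?_)
      push_cast
      exact Finset.sum_congr rfl fun k _ => mul_comm _ _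
    exact_mod_cast h7
  · rw [hcomb fun i => - c i s, hY]
    refine Finset.sum_congr rfl fun b _ => ?_
    by_cases hb : t b = 0
    · rw [hb, zero_mul, zero_mul]
    · rw [key b hb s hs]

end Pool.Agent.Q57.MV
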