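import Pool.Agent.Q57.MV.Cone

/-!
The cone of the divisors which are nef on an open toroidal subset: the main theorem.
-/

set_option autoImplicit false
set_option linter.overlappingInstances false
set_option linter.unusedSectionVars false
set_option maxHeartbeats 1000000

open FF MvPolynomial Pool.Agent.W603.LV Pool.Agent.W602.GT Pool.Agent.W602.Cov
open Pool.Agent.TH756.PR Pool.Agent.TH122.AB Pool.Agent.TH756.PN
open Pool.Agent.Y169.CH Pool.Agent.Y169.CH.Cvr Pool.Agent.Q57.TP Pool.Agent.Q57.TQ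
open Pool.Agent.Q57.GM Pool.Agent.Q57.GH Pool.Agent.Q57.FG Pool.Agent.Q57.GG Pool.Agent.Q57.GE
open Pool.Agent.Q57.FH Pool.Agent.Q57.FT

namespace Pool.Agent.Q57.MV

section rows

variable {p r : ℕ} {T' : Type} [Fintype T'] [DecidableEq T']

/-- a row of the matrix -/
def row (τ : T') (a : Fin p → ℤ) (b : Fin r → ℤ) : Fin p ⊕ (T' × Fin r) → ℤ :=
  Sum.elim a fun z => if z.1 = τ then b z.2 else 0

theorem row_sum {A : Type} [CommRing A] (τ : T') (a : Fin p → ℤ) (b : Fin r → ℤ)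
    (lam : Fin p ⊕ (T' × Fin r) → A) :
    ∑ z, ((row τ a b z : ℤ) : A) * lam z =
      ∑ i, (a i : A) * lam (Sum.inl i) + ∑ k, (b k : A) * lam (Sum.inr (τ, k)) := by
  classical
  rw [Fintype.sum_sum_type]
  congr 1
  rw [Fintype.sum_prod_type, Finset.sum_eq_single τ]
  · refine Finset.sum_congr rfl fun k _ => ?_
    simp [row]
  · intro τ' _ h
    refine Finset.sum_eq_zero fun k _ => ?_
    simp [row, h]
  · intro h
    exact absurd (Finset.mem_univ _) h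

end rows

variable {r R N' p : ℕ} {n : Fin r → ℕ} {K : Type} [Field K] [Algebra ℂ K]
  {e : ((i : Fin r) × Fin (n i)) ≃ Fin (N' + 1)} {Φ : Blk ℂ (N' + 1) r} {C : Cvr Φ K R}
  {dF : Fin r → ℕ} {x : ∀ i, Fin (n i + 1) → K} {F : ∀ i, MvPolynomial (Fin (n i + 1)) ℂ}
  {c : Fin p → (Fin r → ℕ) → ℚ} {β : Fin p → Fin r → ℤ} {δ : Fin p → Place ℂ K → ℚ}
  {S T : Finset (Finset (Fin r → ℕ))} {u : Finset (Fin r → ℕ) → Fin p → Fin r → ℚ}

/-- the inequalities define a rational polyhedral cone -/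
theorem mineq_gen (S T : Finset (Finset (Fin r → ℕ))) (dF : Fin r → ℕ)
    (c : Fin p → (Fin r → ℕ) → ℚ) (β : Fin p → Fin r → ℤ) :
    ∃ (N0 : ℕ) (h : Fin N0 → Fin p → ℤ) (y : Fin N0 → Finset (Fin r → ℕ) → Fin r → ℤ),
      (∀ b, (∀ τ ∈ T, ∀ t, (dF t : ℤ) * y b τ t ≤ ∑ i, h b i * β i t) ∧
        (∀ τ ∈ T, ∀ s ∈ S.biUnion id, ∑ i, (h b i : ℚ) * (- c i s) ≤ ∑ k, (y b τ k : ℚ) * s k) ∧
        ∀ τ ∈ T, ∀ s ∈ S.biUnion id, s ∈ τ →
          ∑ i, (h b i : ℚ) * (- c i s) = ∑ k, (y b τ k : ℚ) * s k) ∧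
      ∀ lam : Fin p → ℝ, MIneq S T dF c β lam →
        ∃ t : Fin N0 → ℝ, (∀ b, 0 ≤ t b) ∧ ∀ i, lam i = ∑ b, t b * h b i := by
  classical
  -- the common denominator
  obtain ⟨L, hL, hden⟩ := Pool.Agent.Y169.TH.exists_den
    (fun z : {s // s ∈ S.biUnion id} × Fin p => c z.2 z.1.1)
  choose U hU using hden
  have hLq : (0 : ℚ) < L := by exact_mod_cast hL
  have hLr : (0 : ℝ) < L := by exact_mod_cast hL
  have hUc : ∀ (s : {s // s ∈ S.biUnion id}) i, (L : ℚ) * c i s.1 = U (s, i) :=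
    fun s i => hU (s, i)
  have hUc' : ∀ (s : {s // s ∈ S.biUnion id}) i, (L : ℝ) * c i s.1 = U (s, i) := by
    intro s i
    have h1 := congrArg (fun z : ℚ => (z : ℝ)) (hUc s i)
    push_cast at h1
    exact h1
  obtain ⟨A, hA⟩ : ∃ A : (({τ // τ ∈ T} × Fin r) ⊕ (({τ // τ ∈ T} × {s // s ∈ S.biUnion id}) ⊕
      ({τ // τ ∈ T} × {s // s ∈ S.biUnion id}))) → Fin p ⊕ ({τ // τ ∈ T} × Fin r) → ℤ,
      A = Sum.elim (fun z => row z.1 (fun i => β i z.2) fun k => if k = z.2 then - dF z.2 else 0)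
        (Sum.elim (fun z => row z.1 (fun i => U (z.2, i)) fun k => L * z.2.1 k)
          fun z => row z.1 (fun i => (if z.2.1 ∈ z.1.1 then -1 else 0) * U (z.2, i))
            fun k => (if z.2.1 ∈ z.1.1 then -1 else 0) * (L * z.2.1 k)) := ⟨_, rfl⟩
  obtain ⟨N0, h, h1, h2⟩ := real_cone_any A
  refine ⟨N0, fun b i => h b (Sum.inl i), fun b τ k => if hτ : τ ∈ T then
    h b (Sum.inr (⟨τ, hτ⟩, k)) else 0, fun b => ⟨fun τ hτ t => ?_, fun τ hτ s hs => ?_,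
    fun τ hτ s hs hsτ => ?_⟩, fun lam hlam => ?_⟩
  · have h3 := h1 b (Sum.inl (⟨τ, hτ⟩, t))
    have h4 := row_sum (A := ℤ) (⟨τ, hτ⟩ : {τ // τ ∈ T}) (fun i => β i t)
      (fun k => if k = t then - (dF t : ℤ) else 0) (h b)
    simp only [Int.cast_id] at h4
    rw [hA] at h3
    rw [Sum.elim_inl, h4] at h3
    simp only [ite_mul, zero_mul, Finset.sum_ite_eq', Finset.mem_univ, if_true] at h3
    simp only [dif_pos hτ]
    have h5 : ∑ i, h b (Sum.inl i) * β i t = ∑ i, β i t * h b (Sum.inl i) :=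
      Finset.sum_congr rfl fun i _ => mul_comm _ _
    rw [h5]
    linarith
  · have h3 := h1 b (Sum.inr (Sum.inl (⟨τ, hτ⟩, ⟨s, hs⟩)))
    have h4 := row_sum (A := ℤ) (⟨τ, hτ⟩ : {τ // τ ∈ T}) (fun i => U (⟨s, hs⟩, i))
      (fun k => (L : ℤ) * s k) (h b)
    simp only [Int.cast_id] at h4
    rw [hA] at h3
    rw [Sum.elim_inr, Sum.elim_inl, h4] at h3
    simp only [dif_pos hτ]
    have h5 : (0 : ℚ) ≤ L * (∑ i, (h b (Sum.inl i) : ℚ) * c i s +
        ∑ k, (h b (Sum.inr (⟨τ, hτ⟩, k)) : ℚ) * s k) := by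
      have h6 : ((0 : ℤ) : ℚ) ≤ ((∑ i, U (⟨s, hs⟩, i) * h b (Sum.inl i) +
        ∑ k, (L : ℤ) * s k * h b (Sum.inr (⟨τ, hτ⟩, k)) : ℤ) : ℚ) := by exact_mod_cast h3
      push_cast at h6
      refine h6.trans (le_of_eq ?_)
      rw [mul_add, Finset.mul_sum, Finset.mul_sum]
      congr 1
      · refine Finset.sum_congr rfl fun i _ => ?_
        rw [← hUc ⟨s, hs⟩ i]
        ring
      · refine Finset.sum_congr rfl fun k _ => ?_
        ring
    have h6 := nonneg_of_mul_nonneg_right h5 hLq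
    simp only [mul_neg, Finset.sum_neg_distrib]
    linarith
  · have h3 := h1 b (Sum.inr (Sum.inl (⟨τ, hτ⟩, ⟨s, hs⟩)))
    have h3' := h1 b (Sum.inr (Sum.inr (⟨τ, hτ⟩, ⟨s, hs⟩)))
    have h4 := row_sum (A := ℤ) (⟨τ, hτ⟩ : {τ // τ ∈ T}) (fun i => U (⟨s, hs⟩, i))
      (fun k => (L : ℤ) * s k) (h b)
    have h4' := row_sum (A := ℤ) (⟨τ, hτ⟩ : {τ // τ ∈ T})
      (fun i => (if s ∈ τ then -1 else 0) * U (⟨s, hs⟩, i))
      (fun k => (if s ∈ τ then -1 else 0) * ((L : ℤ) * s k)) (h b)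
    simp only [Int.cast_id] at h4 h4'
    rw [hA] at h3 h3'
    rw [Sum.elim_inr, Sum.elim_inl, h4] at h3
    rw [Sum.elim_inr, Sum.elim_inr, h4'] at h3'
    simp only [if_pos hsτ, neg_mul, one_mul, Finset.sum_neg_distrib] at h3'
    have h0 : ∑ i, U (⟨s, hs⟩, i) * h b (Sum.inl i) +
        ∑ k, (L : ℤ) * s k * h b (Sum.inr (⟨τ, hτ⟩, k)) = 0 := by linarith
    simp only [dif_pos hτ]
    have h5 : L * (∑ i, (h b (Sum.inl i) : ℚ) * c i s +
        ∑ k, (h b (Sum.inr (⟨τ, hτ⟩, k)) : ℚ) * s k) = 0 := by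
      have h6 : ((∑ i, U (⟨s, hs⟩, i) * h b (Sum.inl i) +
        ∑ k, (L : ℤ) * s k * h b (Sum.inr (⟨τ, hτ⟩, k)) : ℤ) : ℚ) = ((0 : ℤ) : ℚ) := by
        rw [h0]
      push_cast at h6
      rw [← h6, mul_add, Finset.mul_sum, Finset.mul_sum]
      congr 1
      · refine Finset.sum_congr rfl fun i _ => ?_
        rw [← hUc ⟨s, hs⟩ i]
        ring
      · refine Finset.sum_congr rfl fun k _ => ?_
        ring
    have h6 := (mul_eq_zero.1 h5).resolve_left hLq.ne'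
    simp only [mul_neg, Finset.sum_neg_distrib]
    linarith
  · have hex : ∀ τ : {τ // τ ∈ T}, ∃ y : Fin r → ℝ,
        (∀ t, (dF t : ℝ) * y t ≤ ∑ i, lam i * β i t) ∧
        (∀ σ ∈ S, ∀ s ∈ σ, - ∑ i, lam i * c i s ≤ ∑ k, y k * (s k : ℝ)) ∧
        ∀ s ∈ τ.1, - ∑ i, lam i * c i s = ∑ k, y k * (s k : ℝ) := fun τ => hlam τ.1 τ.2
    choose y hy1 hy2 hy3 using hex
    have hval : ∀ (τ : {τ // τ ∈ T}) (s : {s // s ∈ S.biUnion id}),
        ∑ i, (U (s, i) : ℝ) * lam i + ∑ k, (((L : ℤ) * s.1 k : ℤ) : ℝ) * y τ k =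
          L * (∑ i, lam i * c i s.1 + ∑ k, y τ k * (s.1 k : ℝ)) := by
      intro τ s
      rw [mul_add, Finset.mul_sum, Finset.mul_sum]
      congr 1
      · refine Finset.sum_congr rfl fun i _ => ?_
        rw [← hUc']
        ring
      · refine Finset.sum_congr rfl fun k _ => ?_
        push_cast
        ring
    obtain ⟨t, ht, hlt⟩ := h2 (Sum.elim lam fun z => y z.1 z.2) fun z => by
      rcases z with ⟨τ, t⟩ | ⟨τ, s⟩ | ⟨τ, s⟩
      · rw [hA, Sum.elim_inl, row_sum (A := ℝ)]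
        have h3 := hy1 τ t
        have h4 : ∑ k, (((if k = t then - (dF t : ℤ) else 0 : ℤ)) : ℝ) * y τ k =
            - (dF t * y τ t) := by
          rw [Finset.sum_eq_single t]
          · rw [if_pos rfl]
            push_cast
            ring
          · intro k _ hk
            rw [if_neg hk]
            push_cast
            ring
          · intro h
            exact absurd (Finset.mem_univ _) h
        simp only [Sum.elim_inl, Sum.elim_inr]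
        rw [h4]
        have h5 : ∑ i, (β i t : ℝ) * lam i = ∑ i, lam i * β i t :=
          Finset.sum_congr rfl fun i _ => mul_comm _ _
        rw [h5]
        linarith
      · rw [hA, Sum.elim_inr, Sum.elim_inl, row_sum (A := ℝ)]
        simp only [Sum.elim_inl, Sum.elim_inr]
        rw [hval]
        refine mul_nonneg hLr.le ?_
        obtain ⟨σ, hσ, hs⟩ := Finset.mem_biUnion.1 s.2
        linarith [hy2 τ σ hσ s.1 hs]
      · rw [hA, Sum.elim_inr, Sum.elim_inr, row_sum (A := ℝ)]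
        simp only [Sum.elim_inl, Sum.elim_inr]
        by_cases hs : s.1 ∈ τ.1
        · have h3 := hval τ s
          have h4 := hy3 τ s.1 hs
          simp only [if_pos hs, neg_mul, one_mul, Int.cast_neg, Finset.sum_neg_distrib]
          have h5 : ∑ i, (U (s, i) : ℝ) * lam i +
              ∑ k, (((L : ℤ) * s.1 k : ℤ) : ℝ) * y τ k = 0 := by
            rw [h3, ← h4]
            ring
          linarith
        · simp [if_neg hs]
    refine ⟨t, ht, fun i => ?_⟩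
    have h3 := hlt (Sum.inl i)
    rw [Sum.elim_inl] at h3
    exact h3

theorem bpo_mono {Op Op' : Place ℂ K → Prop} (h : ∀ P, Op P → Op' P) {N : ℕ} {μ : Fin p → ℤ}
    (hb : Bpo Op' N δ μ) : Bpo Op N δ μ := fun P hP hPP => hb P hP (h P hPP)

/-- **The cone.** -/
theorem cone_mov (H : Mon e C dF x F) (hdF : ∀ i, 1 ≤ dF i) (hΦ : Smo Φ)
    {μ' : Place ℂ K → Fin r → ℕ} (hvv : ∀ P v, MultH C P v → v = μ' P)
    (hcf : ∀ i, CoefT dF x F (c i) (β i) (δ i)) (hS : Fan C.M C.a S)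
    (hu : LinC C.M C.a S c u) (hT : ∀ τ ∈ T, τ.Nonempty ∧ ∃ σ ∈ S, τ ⊆ σ) :
    ∃ (N0 : ℕ) (h : Fin N0 → Fin p → ℤ), (∀ b, Bpo (OpT T μ') (N' + 1) δ (h b)) ∧
      ∀ Op : Place ℂ K → Prop, (∀ P, Op P → OpT T μ' P) →
        (∀ τ ∈ T, ∀ P, InC τ (μ' P) → μ' P ≠ 0 → Tor e dF x F P → Op P) →
        ∀ lam : Fin p → ℝ, (NefZo Op (N' + 1) δ lam ↔ MIneq S T dF c β lam) ∧
          (NefZo Op (N' + 1) δ lam ↔ ∃ t : Fin N0 → ℝ, (∀ b, 0 ≤ t b) ∧
            ∀ i, lam i = ∑ b, t b * h b i) := by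
  classical
  obtain ⟨N0, h, y, h1, h2⟩ := mineq_gen S T dF c β
  have hb : ∀ b, Bpo (OpT T μ') (N' + 1) δ (h b) := fun b =>
    bpo_of H hvv hcf hS hu hT (h1 b).1 (h1 b).2.1 fun τ hτ s hs =>
      (h1 b).2.2 τ hτ s (by
        obtain ⟨-, σ, hσ, hτσ⟩ := hT τ hτ
        exact Finset.mem_biUnion.2 ⟨σ, hσ, hτσ hs⟩) hs
  refine ⟨N0, h, hb, fun Op hOp1 hOp2 lam => ?_⟩
  have h3 : NefZo Op (N' + 1) δ lam → MIneq S T dF c β lam :=
    fun hn => mineq_of_nef H hdF hΦ hvv hcf hS hu hT hOp2 hn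
  have h4 : (∃ t : Fin N0 → ℝ, (∀ b, 0 ≤ t b) ∧ ∀ i, lam i = ∑ b, t b * h b i) →
      NefZo Op (N' + 1) δ lam := by
    rintro ⟨t, ht, hlt⟩
    exact nefZo_of (fun b => bpo_mono hOp1 (hb b)) ht hlt
  exact ⟨⟨h3, fun h5 => h4 (h2 lam h5)⟩, ⟨fun h5 => h2 lam (h3 h5), h4⟩⟩

end Pool.Agent.Q57.MV
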