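import Pool.Agent.Q57.FT.Bpf

/-!
Divisors which are nef or free of base points at some of the places.
-/

set_option autoImplicit false
set_option linter.overlappingInstances false
set_option linter.unusedSectionVars false
set_option maxHeartbeats 1000000

open FF MvPolynomial Pool.Agent.W603.LV Pool.Agent.W602.GT Pool.Agent.W602.Cov
open Pool.Agent.TH756.PR Pool.Agent.TH122.AB Pool.Agent.TH756.PN
open Pool.Agent.Y169.CH Pool.Agent.Q57.TP Pool.Agent.Q57.TQ Pool.Agent.Q57.GM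
open Pool.Agent.Q57.GH Pool.Agent.Q57.FG Pool.Agent.Q57.GG Pool.Agent.Q57.GE Pool.Agent.Q57.FT

namespace Pool.Agent.Q57.MV

variable {p N : ℕ} {K : Type} [Field K] [Algebra ℂ K] {δ : Fin p → Place ℂ K → ℚ}

/-- the real combination `∑ i, lam i • D i` is nef at the places in `Op` (`lam i ≥ 0`) -/
def NefFo (Op : Place ℂ K → Prop) (N : ℕ) (δ : Fin p → Place ℂ K → ℚ) (lam : Fin p → ℝ) : Prop :=
  ∃ S : Finset K, (∃ s ∈ S, s ≠ 0) ∧ ∀ M : ℕ, 1 ≤ M → ∃ j : ℕ, 1 ≤ j ∧
    ∀ P : Place ℂ K, Divisorial N P → Op P →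
      ∃ μ : Fin p →₀ ℕ, (∀ i, |(μ i : ℝ) - j * M * lam i| ≤ j) ∧
      ∃ f : K, FSecA N δ S μ j f ∧ f ≠ 0 ∧ ∀ s ∈ S, s ≠ 0 →
          (P.ord f : ℚ) ≤ j * P.ord s - ∑ i, (μ i : ℚ) * δ i P

/-- the real combination `∑ i, lam i • D i` is nef at the places in `Op` -/
def NefZo (Op : Place ℂ K → Prop) (N : ℕ) (δ : Fin p → Place ℂ K → ℚ) (lam : Fin p → ℝ) : Prop :=
  ∃ S : Finset K, (∃ s ∈ S, s ≠ 0) ∧ ∀ M : ℕ, 1 ≤ M → ∃ j : ℕ, 1 ≤ j ∧
    ∀ P : Place ℂ K, Divisorial N P → Op P →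
      ∃ μ : Fin p → ℤ, (∀ i, |(μ i : ℝ) - j * M * lam i| ≤ j) ∧
      ∃ f : K, f ≠ 0 ∧ ZSecA N δ S μ j f ∧ ∀ s ∈ S, s ≠ 0 →
        (P.ord f : ℚ) ≤ j * P.ord s - ∑ i, (μ i : ℚ) * δ i P

/-- `∑ i, μ i • D i` has no base points at the places in `Op` -/
def Bpo (Op : Place ℂ K → Prop) (N : ℕ) (δ : Fin p → Place ℂ K → ℚ) (μ : Fin p → ℤ) : Prop :=
  ∀ P : Place ℂ K, Divisorial N P → Op P → ∃ f : K, f ≠ 0 ∧ ZSec N δ μ f ∧
    (P.ord f : ℚ) ≤ - ∑ i, (μ i : ℚ) * δ i P

variable {Op : Place ℂ K → Prop}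

/-- **Nef combinations are semiample.** -/
theorem semi_of_nefFo {N0 : ℕ} {g : Fin N0 → Fin p →₀ ℕ} {f : Fin N0 → K}
    (hg : ∀ b, g b ≠ 0 ∧ f b ≠ 0 ∧ FSec N δ (g b) (f b))
    (hord : ∀ (P : Place ℂ K) (S : Finset K), ∃ C1 : ℕ,
        ∀ (μ : Fin p →₀ ℕ) (j : ℕ) (η : K), FSecA N δ S μ j η → η = 0 ∨
            ∃ e : Fin N0 → ℕ,
              (∀ i, |∑ b, (e b : ℤ) * g b i - μ i| ≤ C1 * (j + 1)) ∧
              ∑ b, (e b : ℤ) * P.ord (f b) ≤ P.ord η + C1 * (j + 1))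
    (lam : Fin p → ℝ) (hn : NefFo Op N δ lam) (P : Place ℂ K)
    (hP : Divisorial N P) (hPP : Op P) :
    ∃ t : Fin N0 → ℝ, (∀ b, 0 ≤ t b) ∧ (∀ i, lam i = ∑ b, t b * g b i) ∧ ∀ b, t b ≠ 0 →
      (P.ord (f b) : ℚ) ≤ - ∑ i, (g b i : ℚ) * δ i P := by
  classical
  obtain ⟨S, ⟨s0, hs0, hs00⟩, hnef⟩ := hn
  obtain ⟨a, ha⟩ : ∃ a : Fin N0 → ℝ, a = fun b => (P.ord (f b) : ℝ) +
    ∑ i, (g b i : ℝ) * (δ i P : ℝ) := ⟨_, rfl⟩
  have ha0 : ∀ b, 0 ≤ a b := by
    intro b
    have h1 := ((hg b).2.2 P hP).resolve_left (hg b).2.1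
    have h2 : ((- ∑ i, (g b i : ℚ) * δ i P : ℚ) : ℝ) ≤ ((P.ord (f b) : ℚ) : ℝ) := by
      exact_mod_cast h1
    push_cast at h2
    rw [ha]
    dsimp only
    linarith
  obtain ⟨C1, hC1⟩ := hord P S
  obtain ⟨K0, hK0⟩ : ∃ K0 : ℝ, K0 = |(P.ord s0 : ℝ)| + 2 * C1 * (1 + ∑ i, |(δ i P : ℝ)|) :=
    ⟨_, rfl⟩
  have hK00 : 0 ≤ K0 := by
    rw [hK0]
    positivity
  obtain ⟨t, ht0, ht⟩ := cone_closed (p := p + 1)
    (fun b => Fin.cases (a b) fun i => ((g b i : ℕ) : ℝ)) (fun b i => by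
      refine Fin.cases ?_ (fun i => ?_) i
      · exact ha0 b
      · simp) (fun b => by
      rw [Fin.sum_univ_succ]
      simp only [Fin.cases_zero, Fin.cases_succ]
      have h1 : ∃ i, g b i ≠ 0 := by
        by_contra hcon
        push Not at hcon
        exact (hg b).1 (Finsupp.ext hcon)
      obtain ⟨i, hi⟩ := h1
      have h2 : (1 : ℝ) ≤ g b i := by
        have : 1 ≤ g b i := Nat.one_le_iff_ne_zero.2 hi
        exact_mod_cast this
      have h3 := h2.trans (Finset.single_le_sum (f := fun i => ((g b i : ℕ) : ℝ))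
        (fun i _ => by positivity) (Finset.mem_univ i))
      have h4 := ha0 b
      linarith) (Fin.cases 0 lam) (fun ε hε => by
      obtain ⟨M1, hM1⟩ := exists_nat_gt ((2 * C1 + 1 + K0) / ε)
      rw [div_lt_iff₀ hε] at hM1
      obtain ⟨M, hM⟩ : ∃ M, M = 1 + M1 := ⟨_, rfl⟩
      have hMM : (M1 : ℝ) ≤ M := by
        rw [hM]
        push_cast
        linarith
      have hMε : 2 * C1 + 1 + K0 < (M : ℝ) * ε :=
        lt_of_lt_of_le hM1 (mul_le_mul_of_nonneg_right hMM hε.le)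
      have hMpos : (0 : ℝ) < M := by
        have : 0 < M := by omega
        exact_mod_cast this
      obtain ⟨j, hj, hjP⟩ := hnef M (by omega)
      obtain ⟨μ, hμ, η, hη, hη0, hle⟩ := hjP P hP hPP
      obtain ⟨e, he1, he2⟩ := (hC1 μ j η hη).resolve_left hη0
      have hj0' : (1 : ℝ) ≤ j := by exact_mod_cast hj
      have hjM : (0 : ℝ) < j * M := by positivity
      have hC0 : (0 : ℝ) ≤ C1 := by positivity
      have h1 : ∀ i, |∑ b, (e b : ℝ) * g b i - μ i| ≤ C1 * (j + 1) := by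
        intro i
        have h2 := he1 i
        have h3 : ((|∑ b, (e b : ℤ) * g b i - μ i| : ℤ) : ℝ) ≤ ((C1 * (j + 1) : ℤ) : ℝ) := by
          exact_mod_cast h2
        push_cast at h3
        exact h3
      refine ⟨fun b => (e b : ℝ) / (j * M), fun b => by positivity, fun i => ?_⟩
      refine Fin.cases ?_ (fun i => ?_) i
      · simp only [Fin.cases_zero, sub_zero]
        have h2 : ∑ b, (e b : ℝ) / (j * M) * a b = (∑ b, (e b : ℝ) * a b) / (j * M) := by
          rw [Finset.sum_div]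
          exact Finset.sum_congr rfl fun b _ => by ring
        have h3 : 0 ≤ ∑ b, (e b : ℝ) * a b :=
          Finset.sum_nonneg fun b _ => mul_nonneg (by positivity) (ha0 b)
        rw [h2, abs_of_nonneg (div_nonneg h3 hjM.le), div_le_iff₀ hjM]
        have h4 : ∑ b, (e b : ℝ) * a b = ∑ b, (e b : ℝ) * P.ord (f b) +
            ∑ i, (∑ b, (e b : ℝ) * g b i) * (δ i P : ℝ) := by
          rw [ha]
          simp only [mul_add, Finset.sum_add_distrib, Finset.mul_sum, Finset.sum_mul]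
          congr 1
          rw [Finset.sum_comm]
          exact Finset.sum_congr rfl fun i _ => Finset.sum_congr rfl fun b _ => by ring
        have h5 : ∑ b, (e b : ℝ) * P.ord (f b) ≤ P.ord η + C1 * (j + 1) := by
          exact_mod_cast he2
        have h6 : (P.ord η : ℝ) ≤ j * P.ord s0 - ∑ i, (μ i : ℝ) * (δ i P : ℝ) := by
          have h7 := hle s0 hs0 hs00
          have h9 : (((P.ord η : ℚ)) : ℝ) ≤
              (((j : ℚ) * P.ord s0 - ∑ i, (μ i : ℚ) * δ i P : ℚ) : ℝ) := by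
            exact_mod_cast h7
          push_cast at h9
          exact h9
        have h7 : ∑ i, (∑ b, (e b : ℝ) * g b i) * (δ i P : ℝ) ≤
            ∑ i, (μ i : ℝ) * (δ i P : ℝ) + C1 * (j + 1) * ∑ i, |(δ i P : ℝ)| := by
          rw [Finset.mul_sum, ← Finset.sum_add_distrib]
          refine Finset.sum_le_sum fun i _ => ?_
          have h8 : (∑ b, (e b : ℝ) * g b i) * (δ i P : ℝ) = μ i * (δ i P : ℝ) +
              (∑ b, (e b : ℝ) * g b i - μ i) * (δ i P : ℝ) := by ring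
          rw [h8]
          have h9 : (∑ b, (e b : ℝ) * g b i - μ i) * (δ i P : ℝ) ≤
              C1 * (j + 1) * |(δ i P : ℝ)| := by
            refine (le_abs_self _).trans ?_
            rw [abs_mul]
            exact mul_le_mul_of_nonneg_right (h1 i) (abs_nonneg _)
          linarith
        have h8 : (j : ℝ) * P.ord s0 ≤ j * |(P.ord s0 : ℝ)| :=
          mul_le_mul_of_nonneg_left (le_abs_self _) (by linarith)
        have h9 : (C1 : ℝ) * (j + 1) * (1 + ∑ i, |(δ i P : ℝ)|) ≤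
            j * (2 * C1 * (1 + ∑ i, |(δ i P : ℝ)|)) := by
          have h10 : (0 : ℝ) ≤ C1 * (1 + ∑ i, |(δ i P : ℝ)|) := by positivity
          nlinarith
        have h10 : ∑ b, (e b : ℝ) * a b ≤ j * K0 := by
          rw [h4, hK0]
          linarith
        have h11 : (j : ℝ) * K0 ≤ j * (M * ε) :=
          mul_le_mul_of_nonneg_left (by linarith) (by linarith)
        linarith
      · simp only [Fin.cases_succ]
        have h2 : ∑ b, (e b : ℝ) / (j * M) * g b i - lam i =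
            ((∑ b, (e b : ℝ) * g b i - μ i) + (μ i - j * M * lam i)) / (j * M) := by
          rw [eq_div_iff hjM.ne', sub_mul, Finset.sum_mul]
          have h3 : ∀ b, (e b : ℝ) / (j * M) * g b i * (j * M) = (e b : ℝ) * g b i := by
            intro b
            field_simp
          rw [Finset.sum_congr rfl fun b _ => h3 b]
          ring
        rw [h2, abs_div, abs_of_pos hjM, div_le_iff₀ hjM]
        have h3 := (abs_add_le (∑ b, (e b : ℝ) * g b i - μ i) (μ i - j * M * lam i)).trans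
          (add_le_add (h1 i) (hμ i))
        refine h3.trans ?_
        have h4 : (C1 : ℝ) * (j + 1) + j ≤ (2 * C1 + 1) * j := by nlinarith
        have h5 : (j : ℝ) * (2 * C1 + 1) ≤ j * (M * ε) :=
          mul_le_mul_of_nonneg_left (by linarith) (by linarith)
        nlinarith)
  refine ⟨t, ht0, fun i => ?_, fun b hb => ?_⟩
  · have h1 := ht i.succ
    simpa only [Fin.cases_succ] using h1
  · have h1 := ht 0
    simp only [Fin.cases_zero] at h1
    have h2 := (Finset.sum_eq_zero_iff_of_nonneg fun b _ => mul_nonneg (ht0 b) (ha0 b)).1 h1.symm b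
      (Finset.mem_univ b)
    have h3 : a b = 0 := (mul_eq_zero.1 h2).resolve_left hb
    rw [ha] at h3
    dsimp only at h3
    have h4 : ((P.ord (f b) : ℚ) : ℝ) ≤ ((- ∑ i, (g b i : ℚ) * δ i P : ℚ) : ℝ) := by
      push_cast
      linarith
    exact_mod_cast h4

/-- **Combinations of base point free divisors are nef.** -/
theorem nefZo_of {N N0 : ℕ} {δ : Fin p → Place ℂ K → ℚ} {h : Fin N0 → Fin p → ℤ}
    (hb : ∀ b, Bpo Op N δ (h b)) {lam : Fin p → ℝ} {t : Fin N0 → ℝ} (ht : ∀ b, 0 ≤ t b)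
    (hlt : ∀ i, lam i = ∑ b, t b * h b i) : NefZo Op N δ lam := by
  classical
  obtain ⟨B, hB⟩ : ∃ B : ℕ, B = ∑ i, ∑ b, (h b i).natAbs := ⟨_, rfl⟩
  have hBi : ∀ i, ∑ b, (h b i).natAbs ≤ B := by
    intro i
    rw [hB]
    exact Finset.single_le_sum (f := fun i => ∑ b, (h b i).natAbs) (fun _ _ => Nat.zero_le _)
      (Finset.mem_univ i)
  refine ⟨{1}, ⟨1, by simp, one_ne_zero⟩, fun M hM => ⟨B + 1, by omega, fun P hP hPP => ?_⟩⟩
  choose f hf0 hfs hfP using fun b => hb b P hP hPP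
  obtain ⟨e, he⟩ : ∃ e : Fin N0 → ℕ, e = fun b => ⌊((B + 1 : ℕ) : ℝ) * M * t b⌋₊ := ⟨_, rfl⟩
  have hsec := zsec_prod hfs e
  have hval : ∀ (i : Fin p), ((∑ b, e b • h b) i : ℤ) = ∑ b, (e b : ℤ) * h b i := by
    intro i
    rw [Finset.sum_apply]
    exact Finset.sum_congr rfl fun b _ => by rw [Pi.smul_apply, nsmul_eq_mul]
  refine ⟨∑ b, e b • h b, fun i => ?_, ∏ b, f b ^ e b,
    Finset.prod_ne_zero_iff.2 fun b _ => pow_ne_zero _ (hf0 b), fun P hP => ?_, fun s hs _ => ?_⟩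
  · rw [hval, hlt i, Finset.mul_sum]
    push_cast
    rw [← Finset.sum_sub_distrib]
    refine (Finset.abs_sum_le_sum_abs _ _).trans ?_
    have h2 : ∀ b, |(e b : ℝ) * h b i - ((B : ℝ) + 1) * M * (t b * h b i)| ≤
        ((h b i).natAbs : ℝ) := by
      intro b
      have h3 : (0 : ℝ) ≤ ((B + 1 : ℕ) : ℝ) * M * t b := by
        have := ht b
        positivity
      have h4 := Nat.floor_le h3
      have h5 := Nat.lt_floor_add_one (((B + 1 : ℕ) : ℝ) * M * t b)
      push_cast at h3 h4 h5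
      have h6 : (e b : ℝ) * h b i - ((B : ℝ) + 1) * M * (t b * h b i) =
          ((e b : ℝ) - ((B : ℝ) + 1) * M * t b) * h b i := by
        ring
      have h7 : |(e b : ℝ) - ((B : ℝ) + 1) * M * t b| ≤ 1 := by
        rw [he, abs_le]
        push_cast
        constructor <;> linarith
      have h8 : (((h b i).natAbs : ℕ) : ℝ) = |(h b i : ℝ)| := by
        rw [← Int.cast_abs, Int.abs_eq_natAbs]
        rfl
      rw [h6, abs_mul, h8]
      have h9 := abs_nonneg (h b i : ℝ)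
      nlinarith
    refine (Finset.sum_le_sum fun b _ => h2 b).trans ?_
    have h3 : ((∑ b, (h b i).natAbs : ℕ) : ℝ) ≤ ((B + 1 : ℕ) : ℝ) := by
      exact_mod_cast (hBi i).trans (Nat.le_succ B)
    push_cast at h3 ⊢
    exact h3
  · refine (hsec P hP).imp id fun hle => ⟨1, by simp, one_ne_zero, ?_⟩
    rw [P.ord_one]
    push_cast at hle ⊢
    linarith
  · rw [Finset.mem_singleton] at hs
    rw [hs, P.ord_one]
    rw [ord_prod' P Finset.univ _ fun b _ => pow_ne_zero _ (hf0 b)]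
    have h1 : ∑ i, (((∑ b, e b • h b) i : ℤ) : ℚ) * δ i P =
        ∑ b, (e b : ℚ) * ∑ i, (h b i : ℚ) * δ i P := by
      have h2 : ∀ i, (((∑ b, e b • h b) i : ℤ) : ℚ) * δ i P =
          ∑ b, (e b : ℚ) * ((h b i : ℚ) * δ i P) := by
        intro i
        rw [hval]
        push_cast
        rw [Finset.sum_mul]
        exact Finset.sum_congr rfl fun b _ => by ring
      rw [Finset.sum_congr rfl fun i _ => h2 i, Finset.sum_comm]
      exact Finset.sum_congr rfl fun b _ => (Finset.mul_sum _ _ _).symm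
    rw [h1]
    push_cast
    have h3 : ∑ b, ((P.ord (f b ^ e b) : ℤ) : ℚ) ≤ - ∑ b, (e b : ℚ) * ∑ i, (h b i : ℚ) * δ i P := by
      rw [← Finset.sum_neg_distrib]
      refine Finset.sum_le_sum fun b _ => ?_
      rw [P.ord_pow]
      push_cast
      have h4 := mul_le_mul_of_nonneg_left (hfP b) (by positivity : (0 : ℚ) ≤ e b)
      linarith
    linarith

/-- nef combinations with arbitrary signs -/
theorem nefZo_nefFo {N : ℕ} {δ : Fin p → Place ℂ K → ℚ} {lam : Fin p → ℝ} (h : NefZo Op N δ lam) :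
    NefFo Op N (Fin.append δ fun i P => - δ i P) (posneg lam) := by
  classical
  obtain ⟨S, hS, hnef⟩ := h
  refine ⟨S, hS, fun M hM => ?_⟩
  obtain ⟨j, hj, hjP⟩ := hnef M hM
  refine ⟨j, hj, fun P hP hPP => ?_⟩
  obtain ⟨μ, hμ, f, hf0, hf, hle⟩ := hjP P hP hPP
  obtain ⟨μ2, hμ2⟩ : ∃ μ2 : Fin (p + p) →₀ ℕ, μ2 = Finsupp.equivFunOnFinite.symm
    (Fin.append (fun i => (μ i).toNat) fun i => (- μ i).toNat) := ⟨_, rfl⟩
  have hl : ∀ i, μ2 (Fin.castAdd p i) = (μ i).toNat := by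
    intro i
    rw [hμ2, Finsupp.equivFunOnFinite_symm_apply_apply, Fin.append_left]
  have hr : ∀ i, μ2 (Fin.natAdd p i) = (- μ i).toNat := by
    intro i
    rw [hμ2, Finsupp.equivFunOnFinite_symm_apply_apply, Fin.append_right]
  have hsum : ∀ P, ∑ i, (μ2 i : ℚ) * (Fin.append δ (fun i P => - δ i P) i P) =
      ∑ i, (μ i : ℚ) * δ i P := by
    intro P
    rw [Fin.sum_univ_add, ← Finset.sum_add_distrib]
    refine Finset.sum_congr rfl fun i _ => ?_
    rw [Fin.append_left, Fin.append_right, hl, hr]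
    have h1 : (((μ i).toNat : ℤ)) - ((- μ i).toNat : ℤ) = μ i := Int.toNat_sub_toNat_neg _
    have h2 : ((μ i).toNat : ℚ) - ((- μ i).toNat : ℚ) = μ i := by exact_mod_cast h1
    rw [← h2]
    ring
  refine ⟨μ2, fun i => ?_, f, fun P hP => ?_, hf0, fun s hs hs0 => ?_⟩
  · have key : ∀ (m : ℤ) (l : ℝ), |(m : ℝ) - j * M * l| ≤ j →
        |((m.toNat : ℕ) : ℝ) - j * M * max l 0| ≤ j := by
      intro m l h
      have h1 : ((m.toNat : ℕ) : ℝ) = max (m : ℝ) 0 := by
        have h2 : ((m.toNat : ℕ) : ℤ) = max m 0 := Int.toNat_eq_max m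
        have h3 : (((m.toNat : ℕ) : ℤ) : ℝ) = ((max m 0 : ℤ) : ℝ) := by rw [h2]
        rw [Int.cast_max] at h3
        exact_mod_cast h3
      have h2 : (j : ℝ) * M * max l 0 = max (j * M * l) 0 := by
        rw [mul_max_of_nonneg _ _ (by positivity : (0 : ℝ) ≤ j * M), mul_zero]
      rw [h1, h2]
      exact (abs_max_sub_max_le_abs _ _ _).trans h
    refine Fin.addCases (fun i => ?_) (fun i => ?_) i
    · rw [hl, posneg, Fin.append_left]
      exact key _ _ (hμ i)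
    · rw [hr, posneg, Fin.append_right]
      refine key _ _ ?_
      have h1 := hμ i
      push_cast
      rw [mul_neg, ← abs_neg]
      refine le_trans (le_of_eq ?_) h1
      congr 1
      ring
  · rw [hsum]
    exact hf P hP
  · rw [hsum]
    exact hle s hs hs0

end Pool.Agent.Q57.MV
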