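import Pool.Agent.Q57.MV.Nef
import Pool.Agent.Q57.TC.SetB
import Pool.Agent.Q57.GE.Plc

/-!
Divisorial places with given multiplicities and vanishing log discrepancy, for covers of products of
projective spaces.
-/

set_option autoImplicit false
set_option linter.overlappingInstances false
set_option linter.unusedSectionVars false
set_option maxHeartbeats 1000000

open FF MvPolynomial IntermediateField Pool.Agent.W603.LV Pool.Agent.W619.PQ
open Pool.Agent.W619.TW Pool.Agent.W602.GT Pool.Agent.TH122.AB Pool.Agent.TH756.PN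
open Pool.Agent.TH756.PR
open Pool.Agent.Y169.CH Pool.Agent.Y169.CH.Cvr Pool.Agent.Q57.TP Pool.Agent.Q57.TQ
open Pool.Agent.Q57.GH Pool.Agent.Q57.TC

namespace Pool.Agent.Q57.MV

section

variable {d r : ℕ} {Φ : Blk ℂ (d + 1) r} {K : Type} [Field K] [Algebra ℂ K] {R : ℕ}
  (C : Cvr Φ K R)

/-- regular vector fields, from logarithmic ones -/
theorem reg_of_log {N : ℕ} (htr : Algebra.trdeg ℂ K = N)
    (hfd : ∀ y : Fin N → K, IsTranscendenceBasis ℂ y →
      FiniteDimensional (IntermediateField.adjoin ℂ (Set.range y)) K)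
    {w : Place ℂ K} (hw : IsDivisorial w N) (dd : Fin N → Derivation ℂ K K)
    (hlog : ∀ b, ∀ z : K, w.Reg (dd b z / z)) :
    ∃ E : Fin N → Derivation ℂ K K, (∀ b, DerReg w (E b)) ∧
      ∀ ω : (Fin N → Derivation ℂ K K) → K, IsPluri 1 ω → ω dd ≠ 0 →
        ω E ≠ 0 ∧ w.ord (ω E) + 1 ≤ w.ord (ω dd) := by
  classical
  obtain ⟨y, E', i0, hy, hE'y, hi0, hyreg, hEpres⟩ :=
    Pool.Agent.W619.Y.pFRAME ℂ K N htr hfd w hw
  refine ⟨E', fun b => hEpres b, fun ω hω h0 => ?_⟩
  let M : Matrix (Fin N) (Fin N) K := Matrix.of fun b c => dd b (y c)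
  have hddE : dd = fun b => ∑ c, M b c • E' c := by
    funext b
    apply der_ext' hy
    intro j
    rw [sum_der, Finset.sum_eq_single j]
    · rw [hE'y, if_pos rfl, mul_one]
      rfl
    · intro c _ hc
      rw [hE'y, if_neg hc, mul_zero]
    · intro hj
      exact absurd (Finset.mem_univ _) hj
  have hy0 : ∀ c, y c ≠ 0 := by
    intro c h0
    have h1 := hE'y c c
    rw [h0, map_zero, if_pos rfl] at h1
    exact zero_ne_one h1
  have hge : Ge w 1 M.det := by
    have h1 : M.det = (∏ c, y c) * (Matrix.of fun b c => dd b (y c) / y c).det := by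
      rw [← Matrix.det_mul_row]
      congr 1
      ext b c
      simp only [M, Matrix.of_apply]
      rw [mul_div_cancel₀ _ (hy0 c)]
    rw [h1]
    have h2 : Ge w 0 (Matrix.of fun b c => dd b (y c) / y c).det :=
      Pool.Agent.W619.PQ.ge_det w _ fun b c => hlog b (y c)
    have h3 : Ge w 1 (∏ c, y c) := by
      rw [← Finset.mul_prod_erase Finset.univ y (Finset.mem_univ i0)]
      have h4 : Ge w 0 (∏ c ∈ Finset.univ.erase i0, y c) := by
        refine Finset.prod_induction _ (fun z => Ge w 0 z) (fun a b ha hb => ?_) Ge.one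
          fun c _ => hyreg c
        simpa using ha.mul hb
      have h5 : Ge w 1 (y i0) := Or.inr hi0.ge
      simpa using h5.mul h4
    simpa using h3.mul h2
  have hpl := hω M E'
  rw [← hddE, pow_one] at hpl
  rw [hpl] at h0
  have hM0 : M.det ≠ 0 := left_ne_zero_of_mul h0
  have h1 : ω E' ≠ 0 := right_ne_zero_of_mul h0
  refine ⟨h1, ?_⟩
  rw [hpl, w.ord_mul hM0 h1]
  have h3 : 1 ≤ w.ord M.det := hge.resolve_left hM0
  linarith

/-- there is a divisorial place whose vector of multiplicities is on a given ray, with a regular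
frame on which the order of the logarithmic forms is the minimal one -/
theorem exists_place_log (hΦ : Smo Φ) (X : C.Dir) :
    ∃ (P : Place ℂ K) (v' : Fin r → ℕ) (r' : ℕ), Divisorial (d + 1) P ∧ MultH C P v' ∧
      Adm C.M C.a v' ∧ 1 ≤ r' ∧ X.v = r' • v' ∧ (∀ b, P.Reg (C.Z b)) ∧
      ∀ (ω : (Fin (d + 1) → Derivation ℂ K K) → K) (D : Fin (d + 1) → Derivation ℂ K K),
        IsPluri 1 ω → (∀ i j, D i (C.Z j) = if i = j then 1 else 0) → ω D ≠ 0 →
        ∃ E : Fin (d + 1) → Derivation ℂ K K, (∀ b, DerReg P (E b)) ∧ ω E ≠ 0 ∧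
          P.ord (ω E) + 1 ≤ P.ord (ω D) + ∑ t, (v' t : ℤ) := by
  classical
  obtain ⟨K', iF, iA, iK, hT, G0, G, fG0, fG, hGG, a1, a2, a3, a4, b1, b2, b3, b4, Y, X', hY, hX,
    hYK, hXZ, hbX⟩ := exists_closure2 C.hZ C.bas_Y C.adj_le C.fin_Y
  obtain ⟨DY, hDY0⟩ := exists_dual C.bas_Y
  have hDY : ∀ i j, DY i (C.Y j) = if i = j then 1 else 0 := by
    intro i j
    have h1 := congrFun (congrFun hDY0 i) j
    rw [Matrix.of_apply, Matrix.one_apply] at h1
    exact h1
  obtain ⟨v, hv⟩ : ∃ v : Place ℂ (fixedField G0), ∀ P : MvPolynomial (Fin (d + 1)) ℂ, P ≠ 0 →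
      v.ord (aeval Y P) = mord (fun b => if b = Φ.c (Φ.τ b) then X.lam (Φ.τ b) else 0) P := by
    refine exists_mono hY _ ?_
    obtain ⟨a, b, hab⟩ := X.hone
    have hpt : ∀ a : Fin r → ℕ, wt (fun b => if b = Φ.c (Φ.τ b) then X.lam (Φ.τ b) else 0)
        (Finsupp.equivFunOnFinite.symm fun b => a (Φ.τ b)) = ∑ t, X.lam t * a t := by
      intro a
      rw [wt_piv]
      refine Finset.sum_congr rfl fun t _ => ?_
      rw [Finsupp.coe_equivFunOnFinite_symm, Φ.hc]
    exact ⟨Finsupp.equivFunOnFinite.symm fun b => a (Φ.τ b),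
      Finsupp.equivFunOnFinite.symm fun c => b (Φ.τ c), by rw [hpt, hpt, hab]⟩
  obtain ⟨w, e, I, hw, hIc, hI⟩ := exists_inertia G0 v
  have hg1 : (1 : K' ≃ₐ[ℂ] K') ∈ G0 := one_mem _
  obtain ⟨P, e1, e2, h1, h2, he⟩ := exists_restr (K := K) (over_comp hw hg1)
  obtain ⟨t0, ht0⟩ := Dir.ne C X
  obtain ⟨hdvd, hreg⟩ := C.ramT hΦ hY hYK hDY X.lam hv hw hI hIc hg1 h1 h2 he (N := X.N)
    fun i => by
      have := X.hT i
      simpa only [X.hv] using this
  obtain ⟨r', hr1, hNr, hTv, hvv0⟩ := exists_mulH C X h2.1 hdvd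
  have hadm : Adm C.M C.a (fun t => e2 * X.lam t) := by
    refine ⟨hvv0, fun j => ?_⟩
    exact div_adm C hYK X.lam hv h2 j
  obtain ⟨l, hl⟩ : ∃ l : Fin (d + 1) → ℕ, l = fun b => if b = Φ.c (Φ.τ b) then X.lam (Φ.τ b) else 0 :=
    ⟨_, rfl⟩
  rw [← hl] at hv
  have hlc : ∀ t, l (Φ.c t) = X.lam t := by
    intro t
    rw [hl]
    dsimp only
    rw [Φ.hc, if_pos rfl]
  have hln : ∀ b, b ≠ Φ.c (Φ.τ b) → l b = 0 := by
    intro b hb
    rw [hl]
    exact if_neg hb
  have hdiv : Divisorial (d + 1) P := div_mono hY l (b := Φ.c t0) (by rw [hlc]; exact ht0) hv h2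
  have hordY : ∀ b, P.ord (algebraMap (fixedField G0) K (Y b)) = e2 * l b := by
    intro b
    have h3 := hv (MvPolynomial.X b) (X_ne_zero _)
    rw [aeval_X] at h3
    have h5 : (MvPolynomial.X b : MvPolynomial (Fin (d + 1)) ℂ) =
      monomial (Finsupp.single b 1) 1 := rfl
    rw [h2.2, h3, h5, mord_monomial]
    have h6 : Pool.Agent.Y169.CH.wt l (Finsupp.single b 1) = l b := by
      unfold Pool.Agent.Y169.CH.wt
      rw [Finset.sum_eq_single b]
      · simp
      · intro c _ hc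
        rw [Finsupp.single_apply, if_neg (Ne.symm hc), mul_zero]
      · intro h
        exact absurd (Finset.mem_univ _) h
    rw [h6]
  have h4' : ∀ t, P.ord (aeval C.Z (Φ.F t)) = (e2 : ℤ) * l (Φ.c t) := by
    intro t
    rw [← C.Y_c, ← hYK]
    exact hordY _
  have hmult : MultH C P fun t => e2 * X.lam t := by
    have h6 := multH_reg C hreg
    have h7 : (fun t => (P.ord (aeval C.Z (Φ.F t))).toNat) = fun t => e2 * X.lam t := by
      funext t
      rw [h4', hlc]
      exact_mod_cast Int.toNat_natCast (e2 * X.lam t)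
    rw [h7] at h6
    exact h6
  refine ⟨P, fun t => e2 * X.lam t, r', hdiv, hmult, hadm, hr1, hTv, hreg, fun ω D hω hD hω0 => ?_⟩
  -- the logarithmic frame
  obtain ⟨dd, hdd⟩ : ∃ dd : Fin (d + 1) → Derivation ℂ K K, dd = fun b =>
    (if l b = 0 then 1 else algebraMap (fixedField G0) K (Y b)) • DY b := ⟨_, rfl⟩
  have hlog : ∀ b z, P.Reg (dd b z / z) := fun b z => by
    rw [hdd]
    exact log_mono hY l hv h2 (fun j => by rw [hYK]; exact hDY b j) z
  obtain ⟨E, hE, hEω⟩ := reg_of_log (trdeg_of_basis C.hZ) C.fin_all' hdiv dd hlog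
  -- the change of frames
  let J : Matrix (Fin (d + 1)) (Fin (d + 1)) K := Matrix.of fun a b => D a (C.Y b)
  have hDJ : D = fun a => ∑ b, J a b • DY b := by
    funext a
    apply der_ext' C.bas_Y
    intro j
    rw [sum_der, Finset.sum_eq_single j]
    · rw [hDY, if_pos rfl, mul_one]
      rfl
    · intro b _ hb
      rw [hDY, if_neg hb, mul_zero]
    · intro hj
      exact absurd (Finset.mem_univ _) hj
  have h1 : ω D = J.det * ω DY := by
    conv_lhs => rw [hDJ]
    rw [hω J DY, pow_one]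
  let L : Matrix (Fin (d + 1)) (Fin (d + 1)) K :=
    Matrix.diagonal fun b => if l b = 0 then 1 else algebraMap (fixedField G0) K (Y b)
  have h2' : ω dd = (∏ b, if l b = 0 then 1 else algebraMap (fixedField G0) K (Y b)) * ω DY := by
    have h3 := hω L DY
    rw [Matrix.det_diagonal, pow_one] at h3
    rw [← h3, hdd]
    congr 1
    funext a
    rw [Finset.sum_eq_single a]
    · simp only [L, Matrix.diagonal_apply_eq]
    · intro b _ hb
      simp only [L]
      rw [Matrix.diagonal_apply_ne _ (Ne.symm hb), zero_smul]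
    · intro ha
      exact absurd (Finset.mem_univ _) ha
  have hYne : ∀ b, algebraMap (fixedField G0) K (Y b) ≠ 0 := by
    intro b
    rw [Ne, map_eq_zero]
    intro h0
    have h3 := hY.ne (X_ne_zero (R := ℂ) b)
    rw [aeval_X] at h3
    exact h3 h0
  -- the products
  have hprod0 : (∏ b, if l b = 0 then 1 else algebraMap (fixedField G0) K (Y b)) ≠ 0 := by
    refine Finset.prod_ne_zero_iff.2 fun b _ => ?_
    split_ifs
    · exact one_ne_zero
    · exact hYne b
  have hord1 : P.ord (∏ b, if l b = 0 then 1 else algebraMap (fixedField G0) K (Y b)) =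
      ∑ t, ((e2 * X.lam t : ℕ) : ℤ) := by
    rw [ord_prod' P Finset.univ _ fun b _ => by
      split_ifs
      · exact one_ne_zero
      · exact hYne b]
    have h3 : ∀ b, P.ord (if l b = 0 then 1 else algebraMap (fixedField G0) K (Y b)) =
        (e2 : ℤ) * l b := by
      intro b
      split_ifs with hb
      · rw [P.ord_one, hb]
        simp
      · exact hordY b
    rw [Finset.sum_congr rfl fun b _ => h3 b]
    symm
    refine Finset.sum_of_injOn Φ.c (fun a _ b _ hab => Φ.c_inj hab) (fun a _ => by simp) ?_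
      fun t _ => ?_
    · intro b _ hb
      have hbn : b ≠ Φ.c (Φ.τ b) := by
        intro hb'
        apply hb
        exact ⟨Φ.τ b, by simp, hb'.symm⟩
      rw [hln b hbn]
      simp
    · rw [hlc]
      push_cast
      rfl
  have hJ : P.Reg J.det := by
    refine Pool.Agent.W619.PQ.ge_det P _ fun a b => ?_
    simp only [J, Matrix.of_apply]
    unfold Cvr.Y
    rw [Pool.Agent.Y169.CH.chain]
    refine Ge.sum _ _ fun c _ => ?_
    rw [hD]
    refine P.reg_mul (reg_aeval hreg _) ?_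
    split_ifs
    · exact P.reg_one
    · exact P.reg_zero
  have hDY0' : ω DY ≠ 0 := by
    intro h0
    rw [h0, mul_zero] at h1
    exact hω0 h1
  have hJ0 : J.det ≠ 0 := by
    intro h0
    rw [h0, zero_mul] at h1
    exact hω0 h1
  have hdd0 : ω dd ≠ 0 := by
    rw [h2']
    exact mul_ne_zero hprod0 hDY0'
  obtain ⟨hE0, hE1⟩ := hEω ω hω hdd0
  refine ⟨E, hE, hE0, hE1.trans ?_⟩
  rw [h2', P.ord_mul hprod0 hDY0', hord1, h1, P.ord_mul hJ0 hDY0']
  have h3 : 0 ≤ P.ord J.det := hJ.resolve_left hJ0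
  linarith

end

variable {r R N' : ℕ} {n : Fin r → ℕ} {K : Type} [Field K] [Algebra ℂ K]
  {e : ((i : Fin r) × Fin (n i)) ≃ Fin (N' + 1)} {Φ : Blk ℂ (N' + 1) r} {C : Cvr Φ K R}
  {dF : Fin r → ℕ} {x : ∀ i, Fin (n i + 1) → K} {F : ∀ i, MvPolynomial (Fin (n i + 1)) ℂ}

/-- the log discrepancy at `P` is zero -/
def Tor (e : ((i : Fin r) × Fin (n i)) ≃ Fin (N' + 1)) (dF : Fin r → ℕ)
    (x : ∀ i, Fin (n i + 1) → K) (F : ∀ i, MvPolynomial (Fin (n i + 1)) ℂ) (P : Place ℂ K) : Prop :=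
  ∀ α l v, DatH P dF x F α l v → mo e x P = ∑ i, ((n i : ℤ) + 1) * α i + ∑ i, (v i : ℤ) - 1

/-- **Toroidal places**: there is a divisorial place whose vector of multiplicities is on a given ray,
with log discrepancy zero. -/
theorem exists_toroidal (H : Mon e C dF x F) (hΦ : Smo Φ)
    {μ' : Place ℂ K → Fin r → ℕ} (hvv : ∀ P v, MultH C P v → v = μ' P) {w : Fin r → ℕ}
    (hw : Adm C.M C.a w) :
    ∃ (P : Place ℂ K) (v' : Fin r → ℕ) (r' : ℕ), Divisorial (N' + 1) P ∧ MultH C P v' ∧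
      Adm C.M C.a v' ∧ 1 ≤ r' ∧ w = r' • v' ∧ Tor e dF x F P := by
  classical
  obtain ⟨X, hX⟩ := C.exists_dir hw.1 hw.2
  obtain ⟨P, v', r', hP, hPv, hadm', hr', hXr, hreg, hfr⟩ := exists_place_log C hΦ X
  rw [hX] at hXr
  refine ⟨P, v', r', hP, hPv, hadm', hr', hXr, fun α l v hdat => ?_⟩
  obtain ⟨D, hD0⟩ := exists_dual C.hZ
  have hD : ∀ i j, D i (C.Z j) = if i = j then 1 else 0 := by
    intro i j
    have h1 := congrFun (congrFun hD0 i) j
    rw [Matrix.of_apply, Matrix.one_apply] at h1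
    exact h1
  have hx0 : ∏ i, x i 0 ^ (n i + 1) ≠ 0 :=
    Finset.prod_ne_zero_iff.2 fun i _ => pow_ne_zero _ (H.hx i 0)
  have homD : om e D x = ∏ i, x i 0 ^ (n i + 1) := by
    unfold om
    rw [← H.hZ]
    have h1 : (Matrix.of fun a b : Fin (N' + 1) => D a (C.Z b)) = 1 := hD0
    rw [h1, Matrix.det_one, mul_one]
  obtain ⟨E, hE, hE0, hE1⟩ := hfr (fun D => om e D x) D (fun A D => by
    beta_reduce
    rw [om_lin, pow_one]) hD (by rw [homD]; exact hx0)
  -- the multiplicities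
  have hvv' : v = v' := (hvv P v (hdat.multH H)).trans (hvv P v' hPv).symm
  have hα : ∀ i, P.ord (x i 0) = α i := by
    intro i
    apply le_antisymm _ (hdat.h1 i 0)
    have h1 : ∀ j : Fin (n i + 1), P.ord (x i 0) ≤ P.ord (x i j) := by
      intro j
      refine Fin.cases le_rfl (fun j => ?_) j
      have h2 := hreg (e ⟨i, j⟩)
      have h3 : C.Z (e ⟨i, j⟩) = x i j.succ / x i 0 := by
        rw [H.hZ]
        change aff x (e.symm (e ⟨i, j⟩)) = _
        rw [e.symm_apply_apply]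
        rfl
      rw [h3] at h2
      have h4 := h2.resolve_left (div_ne_zero (H.hx i _) (H.hx i 0))
      rw [P.ord_div (H.hx i _) (H.hx i 0)] at h4
      linarith
    rw [← hdat.h2 i]
    exact h1 (l i)
  have hv0 : v ≠ 0 := by
    rw [hvv']
    exact hadm'.1
  have hlow := le_mo H hdat hE hE0
  rw [if_neg hv0] at hlow
  have hup := mo_le H hE hE0
  have hordx : P.ord (∏ i, x i 0 ^ (n i + 1)) = ∑ i, ((n i : ℤ) + 1) * α i := by
    rw [ord_prod' P Finset.univ _ fun i _ => pow_ne_zero _ (H.hx i 0)]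
    refine Finset.sum_congr rfl fun i _ => ?_
    rw [P.ord_pow, hα]
    push_cast
    ring
  rw [homD, hordx, ← hvv'] at hE1
  linarith

end Pool.Agent.Q57.MV
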